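import Pool.Agent.MP_536a45_ag.Stringy

/-!
# Presentations of a Gorenstein affine variety and its stringy motive
-/

namespace Pool.Agent.MP_536a45_ag

/-- Finitely many generators `f` of the `k`-algebra `S`, and a trivialization `e` of the canonical
module `ω_X = (Ω^d_X)^{∨∨}` of the `d`-dimensional `X = Spec S` (so `r = 1`). -/
structure Pres (k S : Type) [Field k] [CommRing S] [Algebra k S] (d : ℕ) where
  /-- the number of generators -/
  N : ℕ
  /-- the generators -/
  f : Fin N → S
  /-- they generate -/
  gen : Algebra.adjoin k (Set.range f) = ⊤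
  /-- the trivialization of the canonical module -/
  e : Module.Dual S (Module.Dual S (⋀[S]^d (KaehlerDifferential k S))) ≃ₗ[S] S

/-- `M` is the stringy motive `∫ 𝕃^{ord I} dμ_X`, where `Im (Ω^d_X → ω_X) = I ω_X`. -/
def Pres.IsStringy {k S : Type} [Field k] [CommRing S] [Algebra k S] {d : ℕ} (P : Pres k S d)
    (ρ : ℕ) (M : MotHat k ρ) : Prop :=
  IsMotivicIntegral (k := k) P.f d (evalIdeal P.e) ρ M

end Pool.Agent.MP_536a45_ag
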